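import Mathlib

/-!
Project KUM (helper755): if the natural number `η` is not a `q`-th power, then the sum of `1 / r` over
the primes `r ≡ 1 (mod q)` for which `η` is not a `q`-th power modulo `r` diverges.

Statements of the tasks.
-/

set_option autoImplicit false

namespace Pool.Agent.H755R5.Kum

open NumberField

/-- Task A. The prime ideals of a number field: `∑_{P ∈ F} N(P)^(-s) ≤ log (1 / (s - 1)) + C` for every
finite set `F` of maximal ideals and all `1 < s < 2`.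

Proof. `∏_{P ∈ F} (1 + N(P)^(-s)) = ∑_{T ⊆ F} N(∏_{P ∈ T} P)^(-s) ≤ ζ_E(s)` since the map
`T ↦ ∏_{P ∈ T} P` is injective (unique factorisation) and `ζ_E(s) = ∑ n, #{I : N I = n} n^(-s)`
(`NumberField.dedekindZeta`); `(s - 1) ζ_E(s)` is bounded for `1 < s < 2`
(`NumberField.tendsto_sub_one_mul_dedekindZeta_nhdsGT` near `1`, monotonicity of the series away from
`1`); `log (1 + x) ≥ x - x ^ 2` for `0 ≤ x ≤ 1`, and `∑_{P ∈ F} N(P)^(-2s) ≤ ∑_{P ∈ F} N(P)^(-2)` is at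
most `ζ_E(2)`. -/
def TaskA : Prop := ∀ (E : Type) [Field E] [NumberField E], ∃ C : ℝ,
  ∀ F : Finset (Ideal (𝓞 E)), (∀ P ∈ F, P.IsMaximal) → ∀ s : ℝ, 1 < s → s < 2 →
    ∑ P ∈ F, ((Ideal.absNorm P : ℕ) : ℝ) ^ (-s) ≤ Real.log (1 / (s - 1)) + C

/-- Task B. The rational primes: `log (1 / (s - 1)) ≤ ∑ p^(-s) + C` for `1 < s < 2`.

Proof. `ζ(s) ≥ 1 / (s - 1)` and `log ζ(s) = ∑_p - log (1 - p^(-s)) ≤ ∑_p p^(-s) + ∑_p 2 p^(-2s)`. -/
def TaskB : Prop := ∃ C : ℝ, ∀ s : ℝ, 1 < s → s < 2 →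
  Real.log (1 / (s - 1)) ≤ (∑' p : Nat.Primes, ((p : ℕ) : ℝ) ^ (-s)) + C

/-- Task C. Prime ideals of degree one in the field `E = ℚ(η^(1/q))`: for all primes `r ∤ m` every root
`t` of `X ^ q - η` modulo `r` gives a maximal ideal of norm `r`, and different roots give different
ideals.

Proof. `X ^ q - η` is irreducible over `ℚ` (`X_pow_sub_C_irreducible_of_prime`; an integer that is not
a `q`-th power of an integer is not a `q`-th power in `ℚ`), `E = AdjoinRoot`, `θ ∈ 𝓞 E` its root,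
`m > 0` with `m 𝓞_E ⊆ ℤ[θ]`. For `r ∤ m` let `P r t` be a maximal ideal containing `r` and `θ - t`
(for example: `r` divides `t ^ q - η = ± N(θ - t)`, so `Ideal.exists_isMaximal_dvd_of_dvd_absNorm`
applies to the ideal `(θ - t)` for an integer lift of `t`; or use the ring homomorphism `ℤ[θ] → ZMod r`, `θ ↦ t`, extended to
`𝓞 E` by `x ↦ φ(m x) / m`). Modulo `P r t` every `x` with `m x = g(θ)` is `g(t) / m`, so the quotient is
`ZMod r` and the norm is `r`. If `P r t = P r t'` then `t - t' ∈ P ∩ ℤ = r ℤ`. -/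
def TaskC : Prop := ∀ q η : ℕ, q.Prime → 0 < η → (¬ ∃ t : ℕ, t ^ q = η) →
  ∃ (E : Type) (_ : Field E) (_ : NumberField E) (m : ℕ) (P : (r : ℕ) → ZMod r → Ideal (𝓞 E)),
    0 < m ∧ ∀ r : ℕ, r.Prime → ¬ r ∣ m → ∀ t : ZMod r, t ^ q = (η : ZMod r) →
      (P r t).IsMaximal ∧ Ideal.absNorm (P r t) = r ∧
        ∀ t' : ZMod r, t' ^ q = (η : ZMod r) → P r t = P r t' → t = t'

/-- The primes `r ≡ 1 (mod q)` for which `η` is not a `q`-th power modulo `r`. -/
def NonRes (q η : ℕ) : Set ℕ := {r | (r.Prime ∧ q ∣ r - 1) ∧ ¬ ∃ t : ZMod r, t ^ q = (η : ZMod r)}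

/-- Task D. The conclusion (with tasks A, B, C as hypotheses).

Proof. Suppose the sum over `NonRes q η` converges. Take `E`, `m`, `P` from task C. A prime `r ∤ m η q`
with `q ∤ r - 1` has at least one root `t` (`t ↦ t ^ q` is bijective on `ZMod r`); a prime `r ∤ m η q` with
`q ∣ r - 1`, `r ∉ NonRes q η`, has `q` roots (multiply one root by the `q` solutions of `z ^ q = 1`). By
task A for the ideals `P r t`, `r ≤ X`:
`∑_{r ≤ X, r ∤ m η q, q ∤ r - 1} r^(-s) + q ∑_{r ≤ X, r ∤ m η q, q ∣ r - 1, r ∉ NonRes} r^(-s) ≤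
log (1 / (s - 1)) + C ≤ ∑_{all r} r^(-s) + C'` by task B. Let `X → ∞`: the sum
`(q - 1) ∑_{q ∣ r - 1, r ∉ NonRes} r^(-s)` is at most `C'' + ∑_{r ∈ NonRes} r^(-s) + ∑_{r ∣ m η q} 1`, so bounded for
`1 < s < 2`, and therefore `∑_{q ∣ r - 1} 1 / r` converges (every finite sum is a limit for `s → 1`),
contradicting Dirichlet: `Pool.Agent.H374R2.Beal.primes_one_div` (given here as a hypothesis). -/
def TaskD : Prop := TaskA → TaskB → TaskC →
  (∀ m : ℕ, 0 < m → ¬ Summable (fun r : ℕ =>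
    {r : ℕ | r.Prime ∧ m ∣ r - 1}.indicator (fun n : ℕ => (1 : ℝ) / n) r)) →
  ∀ q η : ℕ, q.Prime → 0 < η → (¬ ∃ t : ℕ, t ^ q = η) →
    ¬ Summable (fun r : ℕ => (NonRes q η).indicator (fun n : ℕ => (1 : ℝ) / n) r)

end Pool.Agent.H755R5.Kum
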