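import Mathlib
import Pool.Agent.H755R5.Kum.Stmts

/-!
Project KUM (helper755), second part: quadratic version with signs, needed for exponents divisible
by `4`.
-/

set_option autoImplicit false

namespace Pool.Agent.H755R5.Kum

open NumberField

/-- Task C2: task C for `q = 2` and integers `η` of any sign (same proof; `X ^ 2 - η` is irreducible
over `ℚ` if the integer `η` is not the square of an integer). -/
def TaskC2 : Prop := ∀ η : ℤ, (¬ ∃ t : ℤ, t ^ 2 = η) →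
  ∃ (E : Type) (_ : Field E) (_ : NumberField E) (m : ℕ) (P : (r : ℕ) → ZMod r → Ideal (𝓞 E)),
    0 < m ∧ ∀ r : ℕ, r.Prime → ¬ r ∣ m → ∀ t : ZMod r, t ^ 2 = (η : ZMod r) →
      (P r t).IsMaximal ∧ Ideal.absNorm (P r t) = r ∧
        ∀ t' : ZMod r, t' ^ 2 = (η : ZMod r) → P r t = P r t' → t = t'

/-- Task D2. Divergence of two sums over primes (with tasks A, B, C2 as hypotheses).

Proof. Write `χ_η(r) = 1, -1` if `η` is, is not a square modulo `r ∤ 2 η`. As in task D: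
`∑ (1 + χ_η(r)) r^(-s) ≤ log (1 / (s - 1)) + C ≤ ∑ r^(-s) + C'` for every nonsquare integer `η`, that is
`∑ χ_η(r) r^(-s) ≤ C` for `1 < s < 2`.
(1) If the sum over the `r` with `χ_η(r) = -1` converges, then `∑ χ_η(r) r^(-s)` is
`∑ r^(-s) - O(1)`, unbounded for `s → 1`: contradiction.
(2) The indicator of `r ≡ 1 (mod 4)`, `χ_ρ(r) = -1` is
`(1 + χ_{-1}(r)) (1 - χ_ρ(r)) / 4 = (2 · 1_{r ≡ 1 (4)} - χ_ρ(r) - χ_{-ρ}(r)) / 4` for `r ∤ 2 ρ`, so its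
sum with weights `r^(-s)` is at least `(1 / 2) ∑_{r ≡ 1 (4)} r^(-s) - C`, which is unbounded for `s → 1`
by Dirichlet (hypothesis with `m = 4`). Here both `ρ` and `-ρ` are not squares of integers. -/
def TaskD2 : Prop := TaskA → TaskB → TaskC2 →
  (∀ m : ℕ, 0 < m → ¬ Summable (fun r : ℕ =>
    {r : ℕ | r.Prime ∧ m ∣ r - 1}.indicator (fun n : ℕ => (1 : ℝ) / n) r)) →
  (∀ η : ℤ, (¬ ∃ t : ℤ, t ^ 2 = η) → ¬ Summable (fun r : ℕ =>
    {r : ℕ | r.Prime ∧ ¬ ∃ t : ZMod r, t ^ 2 = (η : ZMod r)}.indicator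
      (fun n : ℕ => (1 : ℝ) / n) r)) ∧
  (∀ ρ : ℕ, 0 < ρ → (¬ ∃ t : ℕ, t ^ 2 = ρ) → ¬ Summable (fun r : ℕ =>
    {r : ℕ | (r.Prime ∧ 4 ∣ r - 1) ∧ ¬ ∃ t : ZMod r, t ^ 2 = (ρ : ZMod r)}.indicator
      (fun n : ℕ => (1 : ℝ) / n) r))

end Pool.Agent.H755R5.Kum
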