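import Mathlib
import Pool.Agent.H755R5.Kum.Stmts
import Pool.Agent.H135R3.KumA
import Pool.Agent.H767R5.Kum.B
import Pool.Agent.H169R3.Kum.C
import Pool.Agent.H407R3.Kum.D
import Pool.Agent.H374R2.BealRes

/-!
Kummer density, put together (task A: helper135, B: helper767, C: helper169, D: helper407).
-/

set_option autoImplicit false

namespace Pool.Agent.H755R5.Kum

/-- If the positive integer `η` is not a `q`-th power, then the sum of `1 / r` over the primes
`r ≡ 1 (mod q)` modulo which `η` is not a `q`-th power diverges. -/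
theorem kummer_density (q η : ℕ) (hq : q.Prime) (hη : 0 < η) (h : ¬ ∃ t : ℕ, t ^ q = η) :
    ¬ Summable (fun r : ℕ => (NonRes q η).indicator (fun n : ℕ => (1 : ℝ) / n) r) :=
  Pool.Agent.H407R3.Kum.taskD Pool.Agent.H135R3.KumA.taskA Pool.Agent.H767R5.Kum.taskB
    Pool.Agent.H169R3.Kum.taskC
    (fun m hm => Pool.Agent.H374R2.Beal.primes_one_div m hm) q η hq hη h

end Pool.Agent.H755R5.Kum
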