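import Mathlib
import Pool.Agent.H755R5.Kum.Stmts2
import Pool.Agent.H135R3.KumA
import Pool.Agent.H767R5.Kum.B
import Pool.Agent.H612K.Kum.C2
import Pool.Agent.H431R3.Kum.D2
import Pool.Agent.H374R2.BealRes

/-!
Quadratic version with signs, put together (task A: helper135, B: helper767, C2: helper612,
D2: helper431).
-/

set_option autoImplicit false

namespace Pool.Agent.H755R5.Kum

/-- If the integer `η` is not a square, then the sum of `1 / r` over the primes `r` modulo which `η`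
is not a square diverges. -/
theorem nonsquare_density (η : ℤ) (h : ¬ ∃ t : ℤ, t ^ 2 = η) : ¬ Summable (fun r : ℕ =>
    {r : ℕ | r.Prime ∧ ¬ ∃ t : ZMod r, t ^ 2 = (η : ZMod r)}.indicator
      (fun n : ℕ => (1 : ℝ) / n) r) :=
  (Pool.Agent.H431R3.Kum.taskD2 Pool.Agent.H135R3.KumA.taskA Pool.Agent.H767R5.Kum.taskB Pool.Agent.H612K.Kum.taskC2
    (fun m hm => Pool.Agent.H374R2.Beal.primes_one_div m hm)).1 η h

/-- The same for positive nonsquare `ρ` and the primes `r ≡ 1 (mod 4)`. -/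
theorem nonsquare_density_four (ρ : ℕ) (hρ : 0 < ρ) (h : ¬ ∃ t : ℕ, t ^ 2 = ρ) :
    ¬ Summable (fun r : ℕ =>
      {r : ℕ | (r.Prime ∧ 4 ∣ r - 1) ∧ ¬ ∃ t : ZMod r, t ^ 2 = (ρ : ZMod r)}.indicator
        (fun n : ℕ => (1 : ℝ) / n) r) :=
  (Pool.Agent.H431R3.Kum.taskD2 Pool.Agent.H135R3.KumA.taskA Pool.Agent.H767R5.Kum.taskB Pool.Agent.H612K.Kum.taskC2
    (fun m hm => Pool.Agent.H374R2.Beal.primes_one_div m hm)).2 ρ hρ h

end Pool.Agent.H755R5.Kum
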